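import Pool.Agent.H75.PRL.S3

/-!
# The product formula for Hilbert symbols over `F(t)`, from quadratic reciprocity
-/

set_option autoImplicit false

namespace Pool.PRL

open Polynomial Matrix Pool.AVR Pool.AVS Pool.RZ

namespace HPF

variable {F : Type} [Field F]

/-! ### Squares in finite fields -/

theorem sq_mul {K : Type*} [Field K] [Finite K] {x y : K} (hx : x ≠ 0) (hy : y ≠ 0) :
    IsSquare (x * y) ↔ (IsSquare x ↔ IsSquare y) := by
  classical
  have := Fintype.ofFinite K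
  rw [← quadraticChar_one_iff_isSquare hx, ← quadraticChar_one_iff_isSquare hy,
    ← quadraticChar_one_iff_isSquare (mul_ne_zero hx hy), map_mul]
  rcases quadraticChar_dichotomy hx with h | h <;> rcases quadraticChar_dichotomy hy with h' | h' <;>
    rw [h, h'] <;> norm_num

theorem sqM_iff {P : F[X]} (a : F[X]) : SqM P a ↔ IsSquare (AdjoinRoot.mk P a) := by
  constructor
  · rintro ⟨w, hw⟩
    refine ⟨AdjoinRoot.mk P w, ?_⟩
    rw [← map_mul, AdjoinRoot.mk_eq_mk, ← pow_two]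
    exact hw
  · rintro ⟨r, hr⟩
    obtain ⟨w, rfl⟩ := AdjoinRoot.mk_surjective r
    refine ⟨w, ?_⟩
    rw [← map_mul, AdjoinRoot.mk_eq_mk, ← pow_two] at hr
    exact hr

theorem finite_adj [Finite F] {P : F[X]} (hP : P ≠ 0) : Finite (AdjoinRoot P) := by
  have : Module.Finite F (AdjoinRoot P) := (AdjoinRoot.powerBasis hP).finite
  exact Module.finite_of_finite F

theorem sqM_mul [Finite F] {P : F[X]} (hP : Irreducible P) {a b : F[X]} (ha : ¬ P ∣ a)
    (hb : ¬ P ∣ b) : SqM P (a * b) ↔ (SqM P a ↔ SqM P b) := by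
  have : Fact (Irreducible P) := ⟨hP⟩
  have := finite_adj hP.ne_zero
  rw [sqM_iff, sqM_iff, sqM_iff, map_mul]
  refine sq_mul ?_ ?_
  · rwa [Ne, AdjoinRoot.mk_eq_zero]
  · rwa [Ne, AdjoinRoot.mk_eq_zero]

theorem sqM_one (P : F[X]) : SqM P 1 := ⟨1, by simp⟩

/-! ### Orders and cofactors -/

theorem fin_mul {P a : F[X]} (hP : Irreducible P) (ha : a ≠ 0) : FiniteMultiplicity P a :=
  FiniteMultiplicity.of_prime_left hP.prime ha

theorem ord_mul {P a b : F[X]} (hP : Irreducible P) (ha : a ≠ 0) (hb : b ≠ 0) :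
    ordP P (a * b) = ordP P a + ordP P b :=
  multiplicity_mul hP.prime (fin_mul hP (mul_ne_zero ha hb))

theorem cof_spec {P a : F[X]} (hP : Irreducible P) (ha : a ≠ 0) :
    a = P ^ ordP P a * cofP P a ∧ ¬ P ∣ cofP P a := by
  obtain ⟨c, hc, hcP⟩ := (fin_mul hP ha).exists_eq_pow_mul_and_not_dvd
  have hpow : P ^ ordP P a ≠ 0 := pow_ne_zero _ hP.ne_zero
  have e : cofP P a = c := by
    unfold cofP
    have h1 : a = P ^ ordP P a * c := hc
    calc a / P ^ ordP P a = P ^ ordP P a * c / P ^ ordP P a := by rw [← h1]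
      _ = c := by rw [mul_div_cancel_left₀ _ hpow]
  rw [e]
  exact ⟨hc, hcP⟩

theorem cof_mul {P a b : F[X]} (hP : Irreducible P) (ha : a ≠ 0) (hb : b ≠ 0) :
    cofP P (a * b) = cofP P a * cofP P b := by
  have h1 := (cof_spec hP ha).1
  have h2 := (cof_spec hP hb).1
  have h3 := (cof_spec hP (mul_ne_zero ha hb)).1
  have hpow : P ^ ordP P (a * b) ≠ 0 := pow_ne_zero _ hP.ne_zero
  refine mul_left_cancel₀ hpow ?_
  rw [← h3, ord_mul hP ha hb, pow_add]
  calc a * b = (P ^ ordP P a * cofP P a) * (P ^ ordP P b * cofP P b) := by rw [← h1, ← h2]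
    _ = _ := by ring

theorem ord_zero {P a : F[X]} (h : ¬ P ∣ a) : ordP P a = 0 :=
  multiplicity_eq_zero.2 h

theorem cof_zero {P a : F[X]} (h : ¬ P ∣ a) : cofP P a = a := by
  unfold cofP
  rw [ord_zero h, pow_zero]
  exact EuclideanDomain.div_one a

theorem ord_self (P : F[X]) : ordP P P = 1 := multiplicity_self

theorem cof_self {P : F[X]} (hP : Irreducible P) : cofP P P = 1 := by
  unfold cofP
  rw [ord_self P, pow_one]
  exact EuclideanDomain.div_self hP.ne_zero

/-! ### The symbols -/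

/-- The argument of the symbol. -/
noncomputable def arg (P a b : F[X]) : F[X] :=
  (-1) ^ (ordP P a * ordP P b) * cofP P a ^ ordP P b * cofP P b ^ ordP P a

theorem hbP_iff (P a b : F[X]) : HbP P a b ↔ SqM P (arg P a b) := Iff.rfl

theorem not_dvd_neg_one {P : F[X]} (hP : Irreducible P) (n : ℕ) : ¬ P ∣ (-1) ^ n := by
  intro h
  have h1 := hP.prime.dvd_of_dvd_pow h
  exact hP.not_isUnit (isUnit_of_dvd_unit h1 (by simp))

theorem arg_not_dvd {P a b : F[X]} (hP : Irreducible P) (ha : a ≠ 0) (hb : b ≠ 0) :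
    ¬ P ∣ arg P a b := by
  unfold arg
  intro h
  rcases hP.prime.dvd_or_dvd h with h1 | h1
  · rcases hP.prime.dvd_or_dvd h1 with h2 | h2
    · exact not_dvd_neg_one hP _ h2
    · exact (cof_spec hP ha).2 (hP.prime.dvd_of_dvd_pow h2)
  · exact (cof_spec hP hb).2 (hP.prime.dvd_of_dvd_pow h1)

theorem arg_mul {P a a' b : F[X]} (hP : Irreducible P) (ha : a ≠ 0) (ha' : a' ≠ 0) :
    arg P (a * a') b = arg P a b * arg P a' b := by
  unfold arg
  rw [ord_mul hP ha ha', cof_mul hP ha ha', add_mul, pow_add, mul_pow, pow_add]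
  ring

theorem arg_symm (P a b : F[X]) : arg P a b = arg P b a := by
  unfold arg
  rw [mul_comm (ordP P a)]
  ring

open Classical in
/-- The symbol at `P` as a sign. -/
noncomputable def sg (P a b : F[X]) : ℤ := if HbP P a b then 1 else -1

open Classical in
/-- The symbol at infinity as a sign. -/
noncomputable def sgI (a b : F[X]) : ℤ := if HbI a b then 1 else -1

theorem sg_symm (P a b : F[X]) : sg P a b = sg P b a := by
  unfold sg
  have h : HbP P a b ↔ HbP P b a := by rw [hbP_iff, hbP_iff, arg_symm]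
  by_cases h1 : HbP P a b
  · rw [if_pos h1, if_pos (h.1 h1)]
  · rw [if_neg h1, if_neg (fun h2 => h1 (h.2 h2))]

theorem sg_mul [Finite F] {P a a' b : F[X]} (hP : Irreducible P) (ha : a ≠ 0) (ha' : a' ≠ 0)
    (hb : b ≠ 0) : sg P (a * a') b = sg P a b * sg P a' b := by
  unfold sg
  have h : HbP P (a * a') b ↔ (HbP P a b ↔ HbP P a' b) := by
    rw [hbP_iff, hbP_iff, hbP_iff, arg_mul hP ha ha']
    exact sqM_mul hP (arg_not_dvd hP ha hb) (arg_not_dvd hP ha' hb)
  by_cases h1 : HbP P a b <;> by_cases h2 : HbP P a' b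
  · rw [if_pos (h.2 ⟨fun _ => h2, fun _ => h1⟩), if_pos h1, if_pos h2]; norm_num
  · rw [if_neg (fun h3 => h2 ((h.1 h3).1 h1)), if_pos h1, if_neg h2]; norm_num
  · rw [if_neg (fun h3 => h1 ((h.1 h3).2 h2)), if_neg h1, if_pos h2]; norm_num
  · rw [if_pos (h.2 ⟨fun h3 => absurd h3 h1, fun h3 => absurd h3 h2⟩), if_neg h1, if_neg h2]
    norm_num

theorem sg_one {P a b : F[X]} (ha : ¬ P ∣ a) (hb : ¬ P ∣ b) : sg P a b = 1 := by
  unfold sg
  rw [if_pos]
  rw [hbP_iff]
  unfold arg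
  rw [ord_zero ha, ord_zero hb]
  simpa using sqM_one P

/-- The argument at infinity. -/
noncomputable def argI (a b : F[X]) : F :=
  (-1) ^ (a.natDegree * b.natDegree) * a.leadingCoeff ^ b.natDegree *
    b.leadingCoeff ^ a.natDegree

theorem hbI_iff (a b : F[X]) : HbI a b ↔ IsSquare (argI a b) := Iff.rfl

theorem argI_ne {a b : F[X]} (ha : a ≠ 0) (hb : b ≠ 0) : argI a b ≠ 0 := by
  unfold argI
  refine mul_ne_zero (mul_ne_zero (pow_ne_zero _ (by simp)) (pow_ne_zero _ ?_)) (pow_ne_zero _ ?_)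
  · exact leadingCoeff_ne_zero.2 ha
  · exact leadingCoeff_ne_zero.2 hb

theorem argI_mul {a a' b : F[X]} (ha : a ≠ 0) (ha' : a' ≠ 0) :
    argI (a * a') b = argI a b * argI a' b := by
  unfold argI
  rw [natDegree_mul ha ha', leadingCoeff_mul, add_mul, pow_add, mul_pow, pow_add]
  ring

theorem argI_symm (a b : F[X]) : argI a b = argI b a := by
  unfold argI
  rw [mul_comm a.natDegree]
  ring

theorem sgI_symm (a b : F[X]) : sgI a b = sgI b a := by
  unfold sgI
  have h : HbI a b ↔ HbI b a := by rw [hbI_iff, hbI_iff, argI_symm]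
  by_cases h1 : HbI a b
  · rw [if_pos h1, if_pos (h.1 h1)]
  · rw [if_neg h1, if_neg (fun h2 => h1 (h.2 h2))]

theorem sgI_mul [Finite F] {a a' b : F[X]} (ha : a ≠ 0) (ha' : a' ≠ 0) (hb : b ≠ 0) :
    sgI (a * a') b = sgI a b * sgI a' b := by
  unfold sgI
  have h : HbI (a * a') b ↔ (HbI a b ↔ HbI a' b) := by
    rw [hbI_iff, hbI_iff, hbI_iff, argI_mul ha ha']
    exact sq_mul (argI_ne ha hb) (argI_ne ha' hb)
  by_cases h1 : HbI a b <;> by_cases h2 : HbI a' b
  · rw [if_pos (h.2 ⟨fun _ => h2, fun _ => h1⟩), if_pos h1, if_pos h2]; norm_num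
  · rw [if_neg (fun h3 => h2 ((h.1 h3).1 h1)), if_pos h1, if_neg h2]; norm_num
  · rw [if_neg (fun h3 => h1 ((h.1 h3).2 h2)), if_neg h1, if_pos h2]; norm_num
  · rw [if_pos (h.2 ⟨fun h3 => absurd h3 h1, fun h3 => absurd h3 h2⟩), if_neg h1, if_neg h2]
    norm_num

/-! ### The product formula -/

/-- The product formula for `a` and `b`. -/
def PF (a b : F[X]) : Prop :=
  ∀ S : Finset F[X], (∀ P ∈ S, P.Monic ∧ Irreducible P) →
    (∀ P : F[X], P.Monic → Irreducible P → P ∣ a ∨ P ∣ b → P ∈ S) →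
    ∏ P ∈ S, sg P a b = sgI a b

theorem PF.symm {a b : F[X]} (h : PF a b) : PF b a := by
  intro S h1 h2
  rw [sgI_symm, ← h S h1 fun P k1 k2 k3 => h2 P k1 k2 k3.symm]
  exact Finset.prod_congr rfl fun P _ => sg_symm P b a

theorem PF.mul [Finite F] {a a' b : F[X]} (ha : a ≠ 0) (ha' : a' ≠ 0) (hb : b ≠ 0)
    (h : PF a b) (h' : PF a' b) : PF (a * a') b := by
  intro S h1 h2
  rw [sgI_mul ha ha' hb, ← h S h1 fun P k1 k2 k3 => h2 P k1 k2
    (k3.imp (fun k => k.mul_right a') id), ← h' S h1 fun P k1 k2 k3 => h2 P k1 k2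
    (k3.imp (fun k => k.mul_left a) id), ← Finset.prod_mul_distrib]
  exact Finset.prod_congr rfl fun P hP => sg_mul (h1 P hP).2 ha ha' hb

/-- Every nonzero polynomial is a product of constants and of monic irreducible polynomials. -/
theorem induct {Q : F[X] → Prop} (hC : ∀ c : F, c ≠ 0 → Q (C c))
    (hP : ∀ P : F[X], P.Monic → Irreducible P → Q P)
    (hm : ∀ a b : F[X], a ≠ 0 → b ≠ 0 → Q a → Q b → Q (a * b)) {a : F[X]} (ha : a ≠ 0) : Q a := by
  induction a using UniqueFactorizationMonoid.induction_on_prime with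
  | h₁ => exact absurd rfl ha
  | h₂ x hx =>
    obtain ⟨c, hc, rfl⟩ := Polynomial.isUnit_iff.1 hx
    exact hC c hc.ne_zero
  | h₃ x p hx hp ih =>
    have hp0 : p ≠ 0 := hp.ne_zero
    refine hm p x hp0 hx ?_ (ih hx)
    have hl : p.leadingCoeff ≠ 0 := leadingCoeff_ne_zero.2 hp0
    have e : p = C p.leadingCoeff * (p * C p.leadingCoeff⁻¹) := by
      rw [mul_comm p, ← mul_assoc, ← C_mul, mul_inv_cancel₀ hl, C_1, one_mul]
    have hmon : (p * C p.leadingCoeff⁻¹).Monic := monic_mul_leadingCoeff_inv hp0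
    have hirr : Irreducible (p * C p.leadingCoeff⁻¹) := by
      have hu : IsUnit (C p.leadingCoeff⁻¹ : F[X]) := Polynomial.isUnit_C.2 (by
        exact (isUnit_iff_ne_zero.2 (inv_ne_zero hl)))
      exact (irreducible_mul_isUnit hu).2 hp.irreducible
    rw [e]
    exact hm _ _ (by rwa [Ne, C_eq_zero]) hmon.ne_zero (hC _ hl) (hP _ hmon hirr)

theorem not_dvd_C {P : F[X]} (hP : Irreducible P) {c : F} (hc : c ≠ 0) : ¬ P ∣ C c := fun h =>
  hP.not_isUnit (isUnit_of_dvd_unit h (isUnit_C.2 (isUnit_iff_ne_zero.2 hc)))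

theorem monic_dvd {P Q : F[X]} (hP : P.Monic) (hP' : Irreducible P) (hQ : Q.Monic)
    (hQ' : Irreducible Q) (h : P ∣ Q) : P = Q := by
  have h1 : Associated P Q := hP'.associated_of_dvd hQ' h
  exact eq_of_monic_of_associated hP hQ h1

theorem pow_isSquare {K : Type*} [Field K] (n : ℕ) {c : K} :
    IsSquare (c ^ n) ↔ (Even n ∨ IsSquare c) := by
  constructor
  · intro h
    by_cases hn : Even n
    · exact Or.inl hn
    · right
      rw [Nat.not_even_iff_odd] at hn
      obtain ⟨k, hk⟩ := hn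
      by_cases hc : c = 0
      · rw [hc]; exact ⟨0, by simp⟩
      obtain ⟨r, hr⟩ := h
      refine ⟨r / c ^ k, ?_⟩
      rw [div_mul_div_comm, ← hr, hk]
      field_simp
      ring
  · rintro (h | h)
    · exact h.isSquare_pow c
    · exact h.pow n

theorem PF_CC [Finite F] {c d : F} (hc : c ≠ 0) (hd : d ≠ 0) : PF (C c) (C d) := by
  intro S h1 _
  have e1 : ∀ P ∈ S, sg P (C c) (C d) = 1 := fun P hP =>
    sg_one (not_dvd_C (h1 P hP).2 hc) (not_dvd_C (h1 P hP).2 hd)
  rw [Finset.prod_congr rfl e1, Finset.prod_const_one]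
  unfold sgI
  rw [if_pos]
  rw [hbI_iff]
  unfold argI
  simp

theorem PF_CQ [Finite F] (hR : ∀ (P : F[X]) (c : F), P.Monic → Irreducible P → c ≠ 0 →
      (SqM P (C c) ↔ (Even P.natDegree ∨ IsSquare c))) {c : F} (hc : c ≠ 0) {Q : F[X]}
    (hQ : Q.Monic) (hQ' : Irreducible Q) : PF (C c) Q := by
  intro S h1 h2
  have hQS : Q ∈ S := h2 Q hQ hQ' (Or.inr dvd_rfl)
  rw [Finset.prod_eq_single Q]
  · unfold sg sgI
    have h : HbP Q (C c) Q ↔ HbI (C c) Q := by
      rw [hbP_iff, hbI_iff]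
      unfold arg argI
      rw [ord_zero (not_dvd_C hQ' hc), ord_self Q, cof_zero (not_dvd_C hQ' hc), natDegree_C,
        leadingCoeff_C, hQ.leadingCoeff]
      simp only [zero_mul, pow_zero, pow_one, one_mul, mul_one]
      rw [hR Q c hQ hQ' hc, pow_isSquare]
    by_cases h3 : HbP Q (C c) Q
    · rw [if_pos h3, if_pos (h.1 h3)]
    · rw [if_neg h3, if_neg (fun h4 => h3 (h.2 h4))]
  · intro P hP hne
    refine sg_one (not_dvd_C (h1 P hP).2 hc) fun hd => hne ?_
    exact monic_dvd (h1 P hP).1 (h1 P hP).2 hQ hQ' hd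
  · intro h
    exact absurd hQS h

theorem PF_QQ [Finite F] (hR : ∀ (P : F[X]) (c : F), P.Monic → Irreducible P → c ≠ 0 →
      (SqM P (C c) ↔ (Even P.natDegree ∨ IsSquare c))) {Q : F[X]}
    (hQ : Q.Monic) (hQ' : Irreducible Q) : PF Q Q := by
  intro S h1 h2
  have hQS : Q ∈ S := h2 Q hQ hQ' (Or.inr dvd_rfl)
  rw [Finset.prod_eq_single Q]
  · unfold sg sgI
    have h : HbP Q Q Q ↔ HbI Q Q := by
      rw [hbP_iff, hbI_iff]
      unfold arg argI
      rw [ord_self Q, cof_self hQ', hQ.leadingCoeff]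
      simp only [one_pow, pow_one, mul_one]
      have e : (-1 : F[X]) = C (-1) := by simp
      rw [e, hR Q (-1) hQ hQ' (by simp), pow_isSquare, Nat.even_mul, or_self]
    by_cases h3 : HbP Q Q Q
    · rw [if_pos h3, if_pos (h.1 h3)]
    · rw [if_neg h3, if_neg (fun h4 => h3 (h.2 h4))]
  · intro P hP hne
    have hnd : ¬ P ∣ Q := fun hd => hne (monic_dvd (h1 P hP).1 (h1 P hP).2 hQ hQ' hd)
    exact sg_one hnd hnd
  · intro h
    exact absurd hQS h

theorem PF_PQ [Finite F] (hR : ∀ P Q : F[X], P.Monic → Irreducible P → Q.Monic → Irreducible Q →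
      P ≠ Q → ((SqM P Q ↔ SqM Q P) ↔ (Even (P.natDegree * Q.natDegree) ∨ IsSquare (-1 : F))))
    {P Q : F[X]} (hP : P.Monic) (hP' : Irreducible P) (hQ : Q.Monic) (hQ' : Irreducible Q)
    (hne : P ≠ Q) : PF P Q := by
  classical
  intro S h1 h2
  have hPS : P ∈ S := h2 P hP hP' (Or.inl dvd_rfl)
  have hQS : Q ∈ S := h2 Q hQ hQ' (Or.inr dvd_rfl)
  have hPQ : ¬ P ∣ Q := fun hd => hne (monic_dvd hP hP' hQ hQ' hd)
  have hQP : ¬ Q ∣ P := fun hd => hne (monic_dvd hQ hQ' hP hP' hd).symm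
  have hsub : ({P, Q} : Finset F[X]) ⊆ S := by
    intro R hR
    rcases Finset.mem_insert.1 hR with h | h
    · rw [h]; exact hPS
    · rw [Finset.mem_singleton.1 h]; exact hQS
  rw [← Finset.prod_subset hsub, Finset.prod_pair hne]
  · have a1 : HbP P P Q ↔ SqM P Q := by
      rw [hbP_iff]
      unfold arg
      rw [ord_self P, ord_zero hPQ, cof_zero hPQ]
      simp only [mul_zero, pow_zero, pow_one, one_mul]
    have a2 : HbP Q P Q ↔ SqM Q P := by
      rw [hbP_iff]
      unfold arg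
      rw [ord_self Q, ord_zero hQP, cof_zero hQP]
      simp only [zero_mul, pow_zero, pow_one, one_mul, mul_one]
    have a3 : HbI P Q ↔ (SqM P Q ↔ SqM Q P) := by
      rw [hR P Q hP hP' hQ hQ' hne, hbI_iff]
      unfold argI
      rw [hP.leadingCoeff, hQ.leadingCoeff, one_pow, one_pow, mul_one, mul_one, pow_isSquare]
    unfold sg sgI
    by_cases b1 : SqM P Q <;> by_cases b2 : SqM Q P
    · rw [if_pos (a1.2 b1), if_pos (a2.2 b2), if_pos (a3.2 ⟨fun _ => b2, fun _ => b1⟩)]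
      norm_num
    · rw [if_pos (a1.2 b1), if_neg (fun h => b2 (a2.1 h)),
        if_neg (fun h => b2 ((a3.1 h).1 b1))]
      norm_num
    · rw [if_neg (fun h => b1 (a1.1 h)), if_pos (a2.2 b2),
        if_neg (fun h => b1 ((a3.1 h).2 b2))]
      norm_num
    · rw [if_neg (fun h => b1 (a1.1 h)), if_neg (fun h => b2 (a2.1 h)),
        if_pos (a3.2 ⟨fun h => absurd h b1, fun h => absurd h b2⟩)]
      norm_num
  · intro R hR hR'
    have k1 : R ≠ P := fun h => hR' (by rw [h]; exact Finset.mem_insert_self _ _)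
    have k2 : R ≠ Q := fun h => hR' (by
      rw [h]; exact Finset.mem_insert_of_mem (Finset.mem_singleton_self _))
    exact sg_one (fun hd => k1 (monic_dvd (h1 R hR).1 (h1 R hR).2 hP hP' hd))
      (fun hd => k2 (monic_dvd (h1 R hR).1 (h1 R hR).2 hQ hQ' hd))

theorem pf_all (hQRC : QRCStmt) [Finite F] (h2 : (2 : F) ≠ 0) {a b : F[X]} (ha : a ≠ 0)
    (hb : b ≠ 0) : PF a b := by
  obtain ⟨r1, r2⟩ := hQRC F h2
  refine induct (Q := fun a => PF a b) ?_ ?_ (fun a a' k k' h h' => PF.mul k k' hb h h') ha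
  · intro c hc
    refine PF.symm (induct (Q := fun b => PF b (C c)) ?_ ?_
      (fun a a' k k' h h' => PF.mul k k' (by rwa [Ne, C_eq_zero]) h h') hb)
    · intro d hd
      exact PF_CC hd hc
    · intro Q hQ hQ'
      exact (PF_CQ r2 hc hQ hQ').symm
  · intro P hP hP'
    refine PF.symm (induct (Q := fun b => PF b P) ?_ ?_
      (fun a a' k k' h h' => PF.mul k k' hP.ne_zero h h') hb)
    · intro d hd
      exact PF_CQ r2 hd hP hP'
    · intro Q hQ hQ'
      by_cases hne : Q = P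
      · rw [hne]
        exact PF_QQ r2 hP hP'
      · exact PF_PQ r1 hQ hQ' hP hP' hne

theorem finite_div {a : F[X]} (ha : a ≠ 0) : {P : F[X] | P.Monic ∧ Irreducible P ∧ P ∣ a}.Finite := by
  classical
  refine Set.Finite.subset (UniqueFactorizationMonoid.normalizedFactors a).toFinset.finite_toSet ?_
  rintro P ⟨h1, h2, h3⟩
  rw [Finset.mem_coe, Multiset.mem_toFinset]
  rw [UniqueFactorizationMonoid.mem_normalizedFactors_iff' ha]
  exact ⟨h2, h1.normalize_eq_self, h3⟩

end HPF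

open HPF in
theorem hpf (hQRC : QRCStmt) : HPFStmt := by
  classical
  intro F _ _ h2 a b ha hb
  have hsub : {P : F[X] | P.Monic ∧ Irreducible P ∧ ¬ HbP P a b} ⊆
      {P : F[X] | P.Monic ∧ Irreducible P ∧ P ∣ a * b} := by
    rintro P ⟨k1, k2, k3⟩
    refine ⟨k1, k2, ?_⟩
    by_contra hc
    have hc1 : ¬ P ∣ a := fun h => hc (h.mul_right b)
    have hc2 : ¬ P ∣ b := fun h => hc (h.mul_left a)
    have := sg_one hc1 hc2
    unfold sg at this
    rw [if_neg k3] at this
    norm_num at this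
  have hfin := (finite_div (mul_ne_zero ha hb)).subset hsub
  refine ⟨hfin, ?_⟩
  have hdf := finite_div (mul_ne_zero ha hb)
  obtain ⟨S, hS⟩ : ∃ S : Finset F[X], S = hdf.toFinset := ⟨_, rfl⟩
  have hmem : ∀ P, P ∈ S ↔ P.Monic ∧ Irreducible P ∧ P ∣ a * b := by
    intro P
    rw [hS, Set.Finite.mem_toFinset]
    exact Iff.rfl
  have key := pf_all hQRC h2 ha hb S (fun P hP => ⟨((hmem P).1 hP).1, ((hmem P).1 hP).2.1⟩)
    (fun P k1 k2 k3 => (hmem P).2 ⟨k1, k2, k3.elim (fun h => h.mul_right b)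
      (fun h => h.mul_left a)⟩)
  have hcard : {P : F[X] | P.Monic ∧ Irreducible P ∧ ¬ HbP P a b}.ncard =
      (S.filter fun P => ¬ HbP P a b).card := by
    rw [← Set.ncard_coe_finset]
    congr 1
    ext P
    rw [Finset.coe_filter, Set.mem_ofPred_eq, Set.mem_ofPred_eq, hmem]
    constructor
    · intro h
      exact ⟨hsub h, h.2.2⟩
    · rintro ⟨k1, k2⟩
      exact ⟨k1.1, k1.2.1, k2⟩
  have hprod : ∏ P ∈ S, sg P a b = (-1) ^ (S.filter fun P => ¬ HbP P a b).card := by
    rw [← Finset.prod_const, Finset.prod_filter]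
    refine Finset.prod_congr rfl fun P _ => ?_
    unfold sg
    by_cases h : HbP P a b
    · rw [if_pos h, if_neg (fun k => k h)]
    · rw [if_neg h, if_pos h]
  rw [hcard]
  rw [hprod] at key
  unfold sgI at key
  by_cases h : HbI a b
  · rw [if_pos h] at key
    refine ⟨fun _ => h, fun _ => ?_⟩
    by_contra hodd
    rw [Nat.not_even_iff_odd] at hodd
    rw [hodd.neg_one_pow] at key
    norm_num at key
  · rw [if_neg h] at key
    refine ⟨fun heven => ?_, fun h' => absurd h' h⟩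
    rw [heven.neg_one_pow] at key
    norm_num at key

end Pool.PRL
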