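import Pool.Agent.H75.PRL.S6

/-!
# NIR: there are many irreducible polynomials of a given large degree
-/

set_option autoImplicit false

namespace Pool.Agent.H64.PRL

open Polynomial

open Classical in
/-- Counting the elements of the extension of degree `e` by their minimal polynomials. -/
theorem count_min (F : Type) [Field F] [Finite F] (e : ℕ) (he : e ≠ 0) :
    ∃ S : Finset F[X], (∀ P ∈ S, P.Monic ∧ Irreducible P ∧ P.natDegree = e) ∧
      Nat.card F ^ e ≤ S.card * e + Nat.card F ^ (e / 2 + 1) := by
  obtain ⟨p, hp⟩ := CharP.exists F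
  have : Fact (Nat.Prime p) := ⟨CharP.char_is_prime F p⟩
  have : NeZero e := ⟨he⟩
  let K := FiniteField.Extension F p e
  have : Fintype K := Fintype.ofFinite K
  have hcard : Fintype.card K = Nat.card F ^ e := by
    rw [Fintype.card_eq_nat_card]; exact FiniteField.natCard_extension F p e
  have hq : 2 ≤ Nat.card F := Finite.one_lt_card
  have hint : ∀ x : K, IsIntegral F x := fun x => IsIntegral.of_finite F x
  let G : Finset K := Finset.univ.filter fun x => (minpoly F x).natDegree = e
  let B : Finset K := Finset.univ.filter fun x => ¬ (minpoly F x).natDegree = e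
  let S : Finset F[X] := G.image fun x => minpoly F x
  refine ⟨S, ?_, ?_⟩
  · intro P hP
    obtain ⟨x, hx, rfl⟩ := Finset.mem_image.1 hP
    exact ⟨minpoly.monic (hint x), minpoly.irreducible (hint x), (Finset.mem_filter.1 hx).2⟩
  · have h1 : G.card + B.card = Nat.card F ^ e := by
      rw [Finset.card_filter_add_card_filter_not, Finset.card_univ, hcard]
    have h2 : G.card ≤ S.card * e := by
      refine (Finset.card_le_mul_card_image G e ?_).trans (le_of_eq (mul_comm _ _))
      intro P hP
      obtain ⟨y, hy, rfl⟩ := Finset.mem_image.1 hP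
      have h3 : (G.filter fun x => minpoly F x = minpoly F y) ⊆
          ((minpoly F y).map (algebraMap F K)).roots.toFinset := by
        intro x hx
        have hx2 := (Finset.mem_filter.1 hx).2
        rw [Multiset.mem_toFinset, mem_roots']
        refine ⟨?_, ?_⟩
        · exact ((minpoly.monic (hint y)).map _).ne_zero
        · rw [IsRoot, eval_map_algebraMap, ← hx2]
          exact minpoly.aeval F x
      refine (Finset.card_le_card h3).trans ((Multiset.toFinset_card_le _).trans ?_)
      refine (card_roots' _).trans ?_
      rw [(minpoly.monic (hint y)).natDegree_map, (Finset.mem_filter.1 hy).2]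
    have h3 : B.card ≤ ∑ d ∈ Finset.range (e / 2 + 1), Nat.card F ^ d := by
      have h4 : B ⊆ (Finset.range (e / 2 + 1)).biUnion fun d =>
          if d = 0 then ∅ else (X ^ Nat.card F ^ d - X : K[X]).roots.toFinset := by
        intro x hx
        have hx2 := (Finset.mem_filter.1 hx).2
        have h5 : (minpoly F x).natDegree ∣ e := by
          have := minpoly.degree_dvd (hint x)
          rwa [FiniteField.finrank_extension] at this
        have h6 : 0 < (minpoly F x).natDegree := minpoly.natDegree_pos (hint x)
        have h7 : (minpoly F x).natDegree ≤ e / 2 := by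
          obtain ⟨c, hc⟩ := h5
          have hc2 : 2 ≤ c := by
            rcases c with _ | _ | c
            · simp at hc; exact absurd hc he
            · simp at hc; exact absurd hc.symm hx2
            · omega
          rw [Nat.le_div_iff_mul_le (by norm_num)]
          calc (minpoly F x).natDegree * 2 ≤ (minpoly F x).natDegree * c :=
                Nat.mul_le_mul_left _ hc2
            _ = e := hc.symm
        rw [Finset.mem_biUnion]
        refine ⟨(minpoly F x).natDegree, Finset.mem_range.2 (by omega), ?_⟩
        rw [if_neg h6.ne', Multiset.mem_toFinset, mem_roots']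
        refine ⟨FiniteField.X_pow_card_pow_sub_X_ne_zero _ h6.ne' (by omega), ?_⟩
        have h8 := ((minpoly.irreducible (hint x)).natDegree_dvd_iff_dvd_X_pow_card_pow_sub_X).1
          (dvd_refl _)
        have h9 := aeval_eq_zero_of_dvd_aeval_eq_zero h8 (minpoly.aeval F x)
        rw [IsRoot]
        simpa using h9
      refine (Finset.card_le_card h4).trans (Finset.card_biUnion_le.trans ?_)
      refine Finset.sum_le_sum fun d _ => ?_
      by_cases hd : d = 0
      · simp [hd]
      · rw [if_neg hd]
        refine (Multiset.toFinset_card_le _).trans ((card_roots' _).trans ?_)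
        rw [FiniteField.X_pow_card_pow_sub_X_natDegree_eq _ hd (by omega)]
    have h4 : ∑ d ∈ Finset.range (e / 2 + 1), Nat.card F ^ d < Nat.card F ^ (e / 2 + 1) :=
      Nat.geomSum_lt hq (by simp)
    omega

theorem nir_thm : Pool.PRL.NIRStmt := by
  intro F _ _ k
  refine ⟨8 * k + 4, fun e he => ?_⟩
  obtain ⟨S, hS, hc⟩ := count_min F e (by omega)
  have hq : 2 ≤ Nat.card F := Finite.one_lt_card
  have hk : k ≤ S.card := by
    by_contra hlt
    have hlt : S.card < k := by omega
    have h1 : Nat.card F ^ (e / 2 + 1) * 2 ≤ Nat.card F ^ e := by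
      calc Nat.card F ^ (e / 2 + 1) * 2 ≤ Nat.card F ^ (e / 2 + 1) * Nat.card F :=
            Nat.mul_le_mul_left _ hq
        _ = Nat.card F ^ (e / 2 + 1 + 1) := (pow_succ _ _).symm
        _ ≤ Nat.card F ^ e := Nat.pow_le_pow_right (by omega) (by omega)
    have h2 : 2 ^ e ≤ Nat.card F ^ e := Nat.pow_le_pow_left hq e
    have h3 : S.card * e ≤ k * e := Nat.mul_le_mul_right _ hlt.le
    have h4 : 2 * (k * e) < 2 ^ e := by
      have h5 : e / 2 < 2 ^ (e / 2) := Nat.lt_two_pow_self
      have h6 : e - e / 2 < 2 ^ (e - e / 2) := Nat.lt_two_pow_self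
      have h7 : 2 ^ (e / 2) * 2 ^ (e - e / 2) = 2 ^ e := by
        rw [← pow_add]; congr 1; omega
      have h8 : (e / 2 + 1) * (e - e / 2 + 1) ≤ 2 ^ e := by
        rw [← h7]; exact Nat.mul_le_mul h5 h6
      have h9 : 4 * k + 1 ≤ e / 2 := by omega
      have h10 : e ≤ 2 * (e - e / 2) := by omega
      have h11 : (4 * k + 1) * (e - e / 2) ≤ (e / 2) * (e - e / 2) := Nat.mul_le_mul_right _ h9
      have h12 : k * e ≤ k * (2 * (e - e / 2)) := Nat.mul_le_mul_left _ h10
      nlinarith
    omega
  obtain ⟨S', hS', hc'⟩ := Finset.exists_subset_card_eq hk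
  exact ⟨S', hc', fun P hP => hS P (hS' hP)⟩

end Pool.Agent.H64.PRL
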